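import Pool.Agent.H37.CTT.Stmts

/-!
Row SC10 of the board `ctt`: the conductor of case (I)
-/

set_option autoImplicit false

namespace Pool.CND

open Finset Polynomial Matrix

theorem sc10_thm (hSC5 : S_SC5) (hSC8 : S_SC8) (hSC9 : S_SC9) (hUMR : S_UMR) (hINF : S_INF)
    (hTOT : S_TOT) (hWLD : S_WLD) (hCNV : S_CNV) : S_SC10 := by
  intro p k F L _ _ _ _ _ _ f q t X G₀ ρ P hp hp2 hchar hf hq hF hS hC hSp hO
  have : Fact p.Prime := ⟨hp⟩
  have : CharP L p := charP_of_injective_algebraMap (algebraMap k L).injective p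
  have hq2 : 2 ≤ q := by
    rw [hq]
    calc 2 ≤ p := hp.two_le
      _ = p ^ 1 := (pow_one p).symm
      _ ≤ p ^ f := Nat.pow_le_pow_right hp.pos hf
  have hqz : (2 : ℤ) ≤ (q : ℤ) := by exact_mod_cast hq2
  have : Finite F := Nat.finite_of_card_ne_zero (by rw [hF]; omega)
  let _ : Fintype F := Fintype.ofFinite F
  have : Finite (Matrix.SpecialLinearGroup (Fin 4) F) :=
    inferInstanceAs (Finite {A : Matrix (Fin 4) (Fin 4) F // A.det = 1})
  have : Finite G₀ := inferInstance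
  let _ : Fintype G₀ := Fintype.ofFinite G₀
  have hfro : ∀ x y : L, (x + y) ^ q = x ^ q + y ^ q := by
    intro x y
    rw [hq]
    exact add_pow_expChar_pow x y p f
  have hc : ∀ a : F, (cst k F L a) ^ q = cst k F L a := by
    intro a
    have h1 : a ^ q = a := by
      rw [← hF, Nat.card_eq_fintype_card]
      exact FiniteField.pow_card a
    show (algebraMap k L (algebraMap F k a)) ^ q = algebraMap k L (algebraMap F k a)
    rw [← map_pow, ← map_pow, h1]
  have hcadd : ∀ a b : F, cst k F L (a + b) = cst k F L a + cst k F L b := by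
    intro a b
    simp [cst]
  obtain ⟨W, I, hW, hI, hWI, ⟨nW, hnW⟩, n, hn, hcard⟩ := hWLD p k L G₀ P ρ hp hchar hC.cov.inj
  have hWm : ∀ g : G₀, g ∈ W ↔ g ∈ ram P ρ 1 := by
    intro g
    rw [← hW]
    rfl
  have hSieg : ∀ g ∈ W, Sieg g.1.1 := fun g hg =>
    hSC5 p k F L f q t 1 t X G₀ ρ P hp hp2 hchar hf hq hF hS hC hO g ((hWm g).1 hg)
  -- the symplectic condition for Siegel matrices
  have hsym : ∀ g : Matrix.SpecialLinearGroup (Fin 4) F, g ∈ Sp4 F → Sieg g.1 →
      g.1 0 2 = g.1 1 3 := by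
    intro g hg hs
    have h1 : g.1ᵀ * J4s F * g.1 = J4s F := hg
    have h2 := congrFun (congrFun h1 2) 3
    have b20 := hs.2 2 3 (Or.inl rfl)
    have b22 := hs.2 2 2 (Or.inl rfl)
    have b32 := hs.2 3 2 (Or.inr rfl)
    have b33 := hs.2 3 3 (Or.inr rfl)
    simp [Matrix.mul_apply, Fin.sum_univ_four, J4s, b20, b22, b32, b33] at h2
    first
      | linear_combination h2
      | linear_combination -h2
  let D : L := X 0 * X 1 ^ q - X 0 ^ q * X 1
  let Z : Fin 3 → L := ![(X 3 * X 1 ^ q - X 3 ^ q * X 1) / D, (X 3 ^ q * X 0 - X 3 * X 0 ^ q) / D,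
    (X 2 ^ q * X 0 - X 2 * X 0 ^ q) / D]
  have hZ : SpZ q X D Z := ⟨rfl, rfl, rfl, rfl⟩
  obtain ⟨hD0, hX0, hX1, -, -, -⟩ := hSC8 p k F L f q t 1 t D X Z hp hchar hf hq hF hS hZ
  have e00 : ∀ g ∈ W, g.1.1 0 0 = 1 := fun g hg => by
    simpa using (hSieg g hg).1 0 0 (Or.inl rfl)
  have e10 : ∀ g ∈ W, g.1.1 1 0 = 0 := fun g hg => by
    simpa using (hSieg g hg).1 1 0 (Or.inl rfl)
  have e20 : ∀ g ∈ W, g.1.1 2 0 = 0 := fun g hg => by
    simpa using (hSieg g hg).1 2 0 (Or.inl rfl)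
  have e30 : ∀ g ∈ W, g.1.1 3 0 = 0 := fun g hg => by
    simpa using (hSieg g hg).1 3 0 (Or.inl rfl)
  have e01 : ∀ g ∈ W, g.1.1 0 1 = 0 := fun g hg => by
    simpa using (hSieg g hg).1 0 1 (Or.inr rfl)
  have e11 : ∀ g ∈ W, g.1.1 1 1 = 1 := fun g hg => by
    simpa using (hSieg g hg).1 1 1 (Or.inr rfl)
  have e21 : ∀ g ∈ W, g.1.1 2 1 = 0 := fun g hg => by
    simpa using (hSieg g hg).1 2 1 (Or.inr rfl)
  have e31 : ∀ g ∈ W, g.1.1 3 1 = 0 := fun g hg => by
    simpa using (hSieg g hg).1 3 1 (Or.inr rfl)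
  have e22 : ∀ g ∈ W, g.1.1 2 2 = 1 := fun g hg => by
    simpa using (hSieg g hg).2 2 2 (Or.inl rfl)
  have e23 : ∀ g ∈ W, g.1.1 2 3 = 0 := fun g hg => by
    simpa using (hSieg g hg).2 2 3 (Or.inl rfl)
  have e32 : ∀ g ∈ W, g.1.1 3 2 = 0 := fun g hg => by
    simpa using (hSieg g hg).2 3 2 (Or.inr rfl)
  have e33 : ∀ g ∈ W, g.1.1 3 3 = 1 := fun g hg => by
    simpa using (hSieg g hg).2 3 3 (Or.inr rfl)
  have e02 : ∀ g ∈ W, g.1.1 0 2 = g.1.1 1 3 := fun g hg =>
    hsym g.1 (hSp g.2) (hSieg g hg)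
  have a0 : ∀ g ∈ W, ρ g (X 0) = X 0 := by
    intro g hg
    rw [hC.act g 0, Fin.sum_univ_four, e00 g hg, e10 g hg, e20 g hg, e30 g hg]
    simp [cst]
  have a1 : ∀ g ∈ W, ρ g (X 1) = X 1 := by
    intro g hg
    rw [hC.act g 1, Fin.sum_univ_four, e01 g hg, e11 g hg, e21 g hg, e31 g hg]
    simp [cst]
  have a2 : ∀ g ∈ W, ρ g (X 2) = X 2 + cst k F L (g.1.1 0 2) * X 0 +
      cst k F L (g.1.1 1 2) * X 1 := by
    intro g hg
    rw [hC.act g 2, Fin.sum_univ_four, e22 g hg, e32 g hg]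
    simp [cst]
    ring
  have a3 : ∀ g ∈ W, ρ g (X 3) = X 3 + cst k F L (g.1.1 0 3) * X 0 +
      cst k F L (g.1.1 1 3) * X 1 := by
    intro g hg
    rw [hC.act g 3, Fin.sum_univ_four, e23 g hg, e33 g hg]
    simp [cst]
    ring
  have aD : ∀ g ∈ W, ρ g D = D := by
    intro g hg
    show ρ g (X 0 * X 1 ^ q - X 0 ^ q * X 1) = _
    rw [map_sub, map_mul, map_mul, map_pow, map_pow, a0 g hg, a1 g hg]
  -- the coordinates
  let cc : G₀ → Fin 3 → F := fun g => ![g.1.1 0 3, g.1.1 1 3, g.1.1 1 2]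
  have bZ : ∀ g ∈ W, ∀ i, ρ g (Z i) = Z i + cst k F L (cc g i) := by
    intro g hg i
    fin_cases i
    · show ρ g ((X 3 * X 1 ^ q - X 3 ^ q * X 1) / D) = (X 3 * X 1 ^ q - X 3 ^ q * X 1) / D +
        cst k F L (g.1.1 0 3)
      rw [map_div₀, aD g hg, map_sub, map_mul, map_mul, map_pow, map_pow, a1 g hg, a3 g hg, hfro,
        hfro, mul_pow, mul_pow, hc, hc, div_add' _ _ _ hD0]
      congr 1
      show _ = _ + cst k F L (g.1.1 0 3) * (X 0 * X 1 ^ q - X 0 ^ q * X 1)
      ring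
    · show ρ g ((X 3 ^ q * X 0 - X 3 * X 0 ^ q) / D) = (X 3 ^ q * X 0 - X 3 * X 0 ^ q) / D +
        cst k F L (g.1.1 1 3)
      rw [map_div₀, aD g hg, map_sub, map_mul, map_mul, map_pow, map_pow, a0 g hg, a3 g hg, hfro,
        hfro, mul_pow, mul_pow, hc, hc, div_add' _ _ _ hD0]
      congr 1
      show _ = _ + cst k F L (g.1.1 1 3) * (X 0 * X 1 ^ q - X 0 ^ q * X 1)
      ring
    · show ρ g ((X 2 ^ q * X 0 - X 2 * X 0 ^ q) / D) = (X 2 ^ q * X 0 - X 2 * X 0 ^ q) / D +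
        cst k F L (g.1.1 1 2)
      rw [map_div₀, aD g hg, map_sub, map_mul, map_mul, map_pow, map_pow, a0 g hg, a2 g hg, hfro,
        hfro, mul_pow, mul_pow, hc, hc, div_add' _ _ _ hD0]
      congr 1
      show _ = _ + cst k F L (g.1.1 1 2) * (X 0 * X 1 ^ q - X 0 ^ q * X 1)
      ring
  let A : (Fin 3 → F) → L := fun a => ∑ i, cst k F L (a i) * (Z i ^ q - Z i)
  have bA : ∀ a, ∀ g ∈ W, ρ g (A a) = A a := by
    intro a g hg
    show ρ g (∑ i, cst k F L (a i) * (Z i ^ q - Z i)) = _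
    rw [map_sum]
    refine Finset.sum_congr rfl fun i _ => ?_
    rw [map_mul, map_sub, map_pow, bZ g hg i, hfro, hc]
    have : ρ g (cst k F L (a i)) = cst k F L (a i) := AlgEquiv.commutes _ _
    rw [this]
    ring
  have hIo : P.ord t = -(Nat.card I : ℤ) := hINF k L G₀ ρ t P I hC.cov hO.neg hI
  have hq21 : (0 : ℤ) < (q : ℤ) ^ 2 - 1 := by nlinarith
  have hWpos : 0 < Nat.card W := Nat.card_pos
  have hIpos : 0 < Nat.card I := Nat.card_pos
  have hnpos : 0 < n := by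
    rcases Nat.eq_zero_or_pos n with h | h
    · rw [h, zero_mul] at hcard
      omega
    · exact h
  have hWz : (Nat.card W : ℤ) ≠ 0 := by exact_mod_cast hWpos.ne'
  have hnz : (0 : ℤ) < n := by exact_mod_cast hnpos
  have hcI : (Nat.card I : ℤ) = n * Nat.card W := by exact_mod_cast hcard
  have hpq : (p : ℤ) ∣ (q : ℤ) := by
    have : p ∣ q := by
      rw [hq]
      exact dvd_pow_self p (by omega)
    exact_mod_cast this
  -- orders
  have hAz : ∀ a : Fin 3 → F, a ≠ 0 → A a ≠ 0 ∧ ∃ z : ℤ, P.ord (A a) = Nat.card W * z := by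
    intro a ha
    have h1 := (hSC9 p k F L f q t D X Z P a hp hp2 hchar hf hq hF hS hO hZ ha).1
    obtain ⟨z, hz⟩ := hTOT k L G₀ P ρ W hC.cov.inj (fun n hn => ((hWm n).1 hn).1) (A a) h1
      (bA a)
    exact ⟨h1, z, hz⟩
  have hcase : ∀ a : Fin 3 → F, a ≠ 0 → ∃ d : ℕ, P.ord (A a) = -((d * Nat.card W : ℕ) : ℤ) ∧
      ((d : ℤ) * ((q : ℤ) ^ 2 - 1) = n * ((q : ℤ) ^ 2 + 1) ∨
        (a ≠ ![1, 0, 0] ∧ (d : ℤ) * ((q : ℤ) ^ 2 - 1) = n * ((q : ℤ) + 1))) := by
    intro a ha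
    obtain ⟨h1, z, hz⟩ := hAz a ha
    have key : ∀ m : ℤ, 0 < m → ((q : ℤ) ^ 2 - 1) * P.ord (A a) = m * P.ord t →
        ∃ d : ℕ, P.ord (A a) = -((d * Nat.card W : ℕ) : ℤ) ∧
          (d : ℤ) * ((q : ℤ) ^ 2 - 1) = n * m := by
      intro m hm h
      rw [hz, hIo, hcI] at h
      have h4 : ((q : ℤ) ^ 2 - 1) * z = -(n * m) := by
        have h5 : (Nat.card W : ℤ) * (((q : ℤ) ^ 2 - 1) * z) = Nat.card W * (-(n * m)) := by
          linarith
        exact mul_left_cancel₀ hWz h5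
      have h5 : 0 < (n : ℤ) * m := mul_pos hnz hm
      have hzneg : z < 0 := by
        by_contra hcon
        rw [not_lt] at hcon
        have := mul_nonneg hq21.le hcon
        linarith
      obtain ⟨d, hd⟩ : ∃ d : ℕ, z = -(d : ℤ) := ⟨z.natAbs, by omega⟩
      refine ⟨d, ?_, ?_⟩
      · rw [hz, hd]
        push_cast
        ring
      · rw [hd] at h4
        linarith
    rcases (hSC9 p k F L f q t D X Z P a hp hp2 hchar hf hq hF hS hO hZ ha).2 with h | ⟨h, h'⟩
    · obtain ⟨d, hd1, hd2⟩ := key ((q : ℤ) ^ 2 + 1) (by positivity) h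
      exact ⟨d, hd1, Or.inl hd2⟩
    · obtain ⟨d, hd1, hd2⟩ := key ((q : ℤ) + 1) (by positivity) h'
      exact ⟨d, hd1, Or.inr ⟨h, hd2⟩⟩
  have hu : (![1, 0, 0] : Fin 3 → F) ≠ 0 := by
    intro h
    have := congrFun h 0
    simp at this
  obtain ⟨N, hNo, hNq⟩ : ∃ N : ℕ, P.ord (A ![1, 0, 0]) = -((N * Nat.card W : ℕ) : ℤ) ∧
      (N : ℤ) * ((q : ℤ) ^ 2 - 1) = n * ((q : ℤ) ^ 2 + 1) := by
    obtain ⟨d, hd1, hd2⟩ := hcase _ hu
    rcases hd2 with h | ⟨h, -⟩
    · exact ⟨d, hd1, h⟩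
    · exact absurd rfl h
  have hall : ∀ a : Fin 3 → F, a ≠ 0 → ∃ d : ℕ, 1 ≤ d ∧ ¬ p ∣ d ∧ d ≤ N ∧
      P.ord (A a) = -((d * Nat.card W : ℕ) : ℤ) := by
    intro a ha
    obtain ⟨d, hd1, hd2⟩ := hcase a ha
    rcases hd2 with h | ⟨-, h⟩
    · have hdN : d = N := by
        have h1 : (d : ℤ) * ((q : ℤ) ^ 2 - 1) = N * ((q : ℤ) ^ 2 - 1) := h.trans hNq.symm
        exact_mod_cast mul_right_cancel₀ hq21.ne' h1
      refine ⟨d, ?_, ?_, hdN.le, hd1⟩
      · rcases Nat.eq_zero_or_pos d with h0 | h0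
        · rw [h0] at h
          have : (0 : ℤ) < n * ((q : ℤ) ^ 2 + 1) := by positivity
          simp at h
          omega
        · exact h0
      · intro hpd
        have h6 : (p : ℤ) ∣ (n : ℤ) := by
          have h7 : (p : ℤ) ∣ (d : ℤ) * ((q : ℤ) ^ 2 - 1) :=
            Dvd.dvd.mul_right (by exact_mod_cast hpd) _
          have h8 : (n : ℤ) = d * ((q : ℤ) ^ 2 - 1) - n * q * q := by
            rw [h]
            ring
          rw [h8]
          exact dvd_sub h7 (Dvd.dvd.mul_left hpq _)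
        exact hn (by exact_mod_cast h6)
    · have h' : (d : ℤ) * ((q : ℤ) - 1) = n := by
        have h1 : ((d : ℤ) * ((q : ℤ) - 1)) * ((q : ℤ) + 1) = n * ((q : ℤ) + 1) := by
          rw [← h]
          ring
        exact mul_right_cancel₀ (by linarith) h1
      refine ⟨d, ?_, ?_, ?_, hd1⟩
      · rcases Nat.eq_zero_or_pos d with h0 | h0
        · rw [h0] at h'
          simp at h'
          omega
        · exact h0
      · intro hpd
        have h6 : (p : ℤ) ∣ (n : ℤ) := by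
          rw [← h']
          exact Dvd.dvd.mul_right (by exact_mod_cast hpd) _
        exact hn (by exact_mod_cast h6)
      · have h1 : (d : ℤ) * ((q : ℤ) ^ 2 - 1) ≤ N * ((q : ℤ) ^ 2 - 1) := by
          rw [h, hNq]
          apply mul_le_mul_of_nonneg_left _ hnz.le
          nlinarith
        exact_mod_cast le_of_mul_le_mul_right h1 hq21
  have hDa : ∃ Da : (Fin 3 → F) → ℕ, ∀ a, a ≠ 0 → 1 ≤ Da a ∧ ¬ p ∣ Da a ∧ Da a ≤ N ∧
      P.ord (A a) = -((Da a * Nat.card W : ℕ) : ℤ) := by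
    classical
    refine ⟨fun a => if h : a ≠ 0 then (hall a h).choose else 0, ?_⟩
    intro a ha
    simp only [dif_pos ha]
    exact (hall a ha).choose_spec
  obtain ⟨Da, hDa⟩ := hDa
  have hDaN : Da ![1, 0, 0] = N := by
    obtain ⟨-, -, -, h4⟩ := hDa _ hu
    rw [hNo] at h4
    have h5 : N * Nat.card W = Da ![1, 0, 0] * Nat.card W := by
      have h6 : ((N * Nat.card W : ℕ) : ℤ) = ((Da ![1, 0, 0] * Nat.card W : ℕ) : ℤ) := by
        linarith
      exact_mod_cast h6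
    exact (Nat.eq_of_mul_eq_mul_right hWpos h5).symm
  -- UMR
  have hmain := hUMR p k F L G₀ f q 3 N P ρ W ⊥ cc Z Da hp hchar hf hq hF (by norm_num)
    hC.cov.inj (fun g hg => (hWm g).1 hg) bot_le
    (by
      intro g hg
      rw [Subgroup.mem_bot]
      constructor
      · intro h
        funext i
        rw [h]
        fin_cases i
        · show (1 : Matrix (Fin 4) (Fin 4) F) 0 3 = 0
          simp
        · show (1 : Matrix (Fin 4) (Fin 4) F) 1 3 = 0
          simp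
        · show (1 : Matrix (Fin 4) (Fin 4) F) 1 2 = 0
          simp
      · intro h
        have h1 : g.1.1 0 3 = 0 := congrFun h 0
        have h2 : g.1.1 1 3 = 0 := congrFun h 1
        have h3 : g.1.1 1 2 = 0 := congrFun h 2
        have h4 : g.1.1 0 2 = 0 := (e02 g hg).trans h2
        apply Subtype.ext
        apply Subtype.ext
        show g.1.1 = (1 : Matrix (Fin 4) (Fin 4) F)
        ext i j
        fin_cases i <;> fin_cases j
        · simpa using e00 g hg
        · simpa using e01 g hg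
        · simpa using h4
        · simpa using h1
        · simpa using e10 g hg
        · simpa using e11 g hg
        · simpa using h3
        · simpa using h2
        · simpa using e20 g hg
        · simpa using e21 g hg
        · simpa using e22 g hg
        · simpa using e23 g hg
        · simpa using e30 g hg
        · simpa using e31 g hg
        · simpa using e32 g hg
        · simpa using e33 g hg)
    (by
      intro g hg g' hg'
      funext i
      have hm : ∀ i j, (g * g').1.1 i j = ∑ l, g.1.1 i l * g'.1.1 l j := by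
        intro i j
        rw [Subgroup.coe_mul, Matrix.SpecialLinearGroup.coe_mul, Matrix.mul_apply]
      fin_cases i
      · show (g * g').1.1 0 3 = g.1.1 0 3 + g'.1.1 0 3
        rw [hm, Fin.sum_univ_four, e00 g hg, e01 g hg, e23 g' hg', e33 g' hg']
        ring
      · show (g * g').1.1 1 3 = g.1.1 1 3 + g'.1.1 1 3
        rw [hm, Fin.sum_univ_four, e10 g hg, e11 g hg, e23 g' hg', e33 g' hg']
        ring
      · show (g * g').1.1 1 2 = g.1.1 1 2 + g'.1.1 1 2
        rw [hm, Fin.sum_univ_four, e10 g hg, e11 g hg, e22 g' hg', e32 g' hg']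
        ring)
    bZ
    (by
      intro a ha
      obtain ⟨c1, c2, c3, c4⟩ := hDa a ha
      refine ⟨c1, c2, c3, 0, fun w _ => map_zero _, ?_⟩
      rw [zero_pow hp.ne_zero, sub_zero, sub_zero]
      exact ⟨(hAz a ha).1, c4⟩)
  obtain ⟨m1, m2, -, m4⟩ := hmain
  obtain ⟨l, hl, hU⟩ := m4 rfl ⟨![1, 0, 0], hu, hDaN⟩
  refine ⟨?_, ?_⟩
  · intro g hg hgs
    obtain ⟨w, hw, hcw⟩ := m2 ![g.1 0 3, g.1 1 3, g.1 1 2]
    have h1 : w.1.1 0 3 = g.1 0 3 := congrFun hcw 0
    have h2 : w.1.1 1 3 = g.1 1 3 := congrFun hcw 1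
    have h3 : w.1.1 1 2 = g.1 1 2 := congrFun hcw 2
    have hws := hSieg w hw
    have h4 : w.1 = g := by
      apply Subtype.ext
      show w.1.1 = g.1
      ext i j
      by_cases hj : j = 0 ∨ j = 1
      · rw [hws.1 i j hj, hgs.1 i j hj]
      · by_cases hi : i = 2 ∨ i = 3
        · rw [hws.2 i j hi, hgs.2 i j hi]
        · fin_cases i <;> fin_cases j
          · exact absurd (Or.inl rfl) hj
          · exact absurd (Or.inr rfl) hj
          · show w.1.1 0 2 = g.1 0 2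
            rw [e02 w hw, hsym g hg hgs]
            exact h2
          · exact h1
          · exact absurd (Or.inl rfl) hj
          · exact absurd (Or.inr rfl) hj
          · exact h3
          · exact h2
          · exact absurd (Or.inl rfl) hj
          · exact absurd (Or.inr rfl) hj
          · exact absurd (Or.inl rfl) hi
          · exact absurd (Or.inl rfl) hi
          · exact absurd (Or.inl rfl) hj
          · exact absurd (Or.inr rfl) hj
          · exact absurd (Or.inr rfl) hi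
          · exact absurd (Or.inr rfl) hi
    rw [← h4]
    exact w.2
  · have h1 := hCNV k L G₀ P ρ W I l hC.cov.inj hW hI hl
    rw [hU] at h1
    have hq' : ((q : ℚ) ^ 2 - 1) ≠ 0 := by
      have : (0 : ℚ) < ((((q : ℤ) ^ 2 - 1 : ℤ)) : ℚ) := by exact_mod_cast hq21
      push_cast at this
      exact this.ne'
    have hNq' : (N : ℚ) * ((q : ℚ) ^ 2 - 1) = n * ((q : ℚ) ^ 2 + 1) := by
      exact_mod_cast hNq
    have hI' : (Nat.card I : ℚ) ≠ 0 := by exact_mod_cast hIpos.ne'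
    have hcI' : (Nat.card I : ℚ) = n * Nat.card W := by exact_mod_cast hcard
    have h3 : (Nat.card W : ℚ) * (N : ℚ) / Nat.card I =
        ((q : ℚ) ^ 2 + 1) / ((q : ℚ) ^ 2 - 1) := by
      rw [div_eq_div_iff hI' hq', hcI']
      linear_combination (Nat.card W : ℚ) * hNq'
    rw [← h3]
    simpa using h1

end Pool.CND
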